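import Pool.Agent.H97.NR.StmtsC

set_option autoImplicit false

namespace Pool.NR.H8C

open Pool.NR

theorem cnt_ncard {α : Type*} (P : α → Prop) : cnt P = Set.ncard {x | P x} :=
  Nat.card_coe_set_eq {x | P x}

theorem cnt_congr {α : Type*} {P Q : α → Prop} (h : ∀ x, P x ↔ Q x) : cnt P = cnt Q := by
  have : P = Q := funext fun x => propext (h x)
  rw [this]

theorem cnt_or {α : Type*} [Finite α] {P Q : α → Prop} (h : ∀ x, P x → Q x → False) :
    cnt (fun x => P x ∨ Q x) = cnt P + cnt Q := by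
  rw [cnt_ncard, cnt_ncard, cnt_ncard]
  exact Set.ncard_union_eq (Set.disjoint_left.2 fun x hx hy => h x hx hy)
    (Set.toFinite _) (Set.toFinite _)

theorem cnt_im {α β : Type*} (f : α → β) (A : α → Prop)
    (hf : ∀ x y, A x → A y → f x = f y → x = y) :
    cnt (fun b => ∃ x, A x ∧ f x = b) = cnt A := by
  rw [cnt_ncard, cnt_ncard]
  exact Set.ncard_image_of_injOn (s := {x | A x}) (f := f) fun x hx y hy h => hf x y hx hy h

theorem cnt_prod {α β : Type*} (P : α → Prop) (Q : β → Prop) :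
    cnt (fun x : α × β => P x.1 ∧ Q x.2) = cnt P * cnt Q := by
  have h := Nat.card_congr (Equiv.subtypeProdEquivProd (p := P) (q := Q))
  rw [Nat.card_prod] at h
  exact h

theorem cnt_true (p : ℕ) : cnt (fun _ : ZMod p => True) = p := by
  have h := Nat.card_congr (Equiv.subtypeUnivEquiv (p := fun _ : ZMod p => True) fun _ => trivial)
  rw [Nat.card_zmod] at h
  exact h

theorem cnt_unique {α : Type*} {P : α → Prop} (h : ∃! a, P a) : cnt P = 1 := by
  obtain ⟨a, ha, hu⟩ := h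
  have : {x | P x} = {a} := Set.ext fun x => ⟨fun hx => hu x hx, fun hx => by
    rw [show x = a from hx]; exact ha⟩
  rw [cnt_ncard, this, Set.ncard_singleton]

theorem cnt_one {α : Type*} (a : α) : cnt (fun x => x = a) = 1 :=
  cnt_unique ⟨a, rfl, fun _ h => h⟩

theorem cnt_false {α : Type*} {P : α → Prop} (h : ∀ a, ¬ P a) : cnt P = 0 := by
  have : {x | P x} = ∅ := Set.eq_empty_iff_forall_notMem.2 fun x hx => h x hx
  rw [cnt_ncard, this, Set.ncard_empty]

variable {p : ℕ}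

theorem T22_inj {a b c d A B C D a' b' c' d' A' B' C' D' : ZMod p} :
    T22 a b c d A B C D = T22 a' b' c' d' A' B' C' D' ↔
      a = a' ∧ b = b' ∧ c = c' ∧ d = d' ∧ A = A' ∧ B = B' ∧ C = C' ∧ D = D' := by
  constructor
  · intro h
    refine ⟨?_, ?_, ?_, ?_, ?_, ?_, ?_, ?_⟩
    · exact congrFun (congrFun (congrFun h 0) 0) 0
    · exact congrFun (congrFun (congrFun h 0) 0) 1
    · exact congrFun (congrFun (congrFun h 0) 1) 0
    · exact congrFun (congrFun (congrFun h 0) 1) 1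
    · exact congrFun (congrFun (congrFun h 1) 0) 0
    · exact congrFun (congrFun (congrFun h 1) 0) 1
    · exact congrFun (congrFun (congrFun h 1) 1) 0
    · exact congrFun (congrFun (congrFun h 1) 1) 1
  · rintro ⟨rfl, rfl, rfl, rfl, rfl, rfl, rfl, rfl⟩
    rfl

theorem T3c_inj {α β a c d e α' β' a' c' d' e' : ZMod p} :
    T3c α β a c d e = T3c α' β' a' c' d' e' ↔
      α = α' ∧ β = β' ∧ a = a' ∧ c = c' ∧ d = d' ∧ e = e' := by
  unfold T3c
  rw [T22_inj]
  constructor
  · rintro ⟨rfl, -, -, rfl, rfl, h1, h2, rfl⟩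
    exact ⟨by simpa using h1, by simpa using h2, rfl, rfl, rfl, rfl⟩
  · rintro ⟨rfl, rfl, rfl, rfl, rfl, rfl⟩
    exact ⟨rfl, rfl, rfl, rfl, rfl, rfl, rfl, rfl⟩

instance fin1 (p : ℕ) [Fact p.Prime] : Finite (Fin 2 → Fin 2 → Fin 2 → ZMod p) := by
  haveI : NeZero p := ⟨(Fact.out : p.Prime).ne_zero⟩
  infer_instance

theorem two_ne (hp : Fact p.Prime) (h2 : p ≠ 2) : (2 : ZMod p) ≠ 0 := by
  intro h
  have h3 : ((2 : ℕ) : ZMod p) = 0 := by exact_mod_cast h
  rw [ZMod.natCast_eq_zero_iff] at h3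
  exact h2 ((Nat.prime_dvd_prime_iff_eq hp.out Nat.prime_two).1 h3)

end Pool.NR.H8C
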