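import Pool.Agent.H97.NR.StmtsC
import Pool.Agent.H8.NR.Cnt

set_option autoImplicit false

namespace Pool.NR

open H8C

theorem j3g : J3GStmt := by
  intro p hp
  have key : ∀ B : Fin 2 → Fin 2 → Fin 2 → ZMod p, NF3cG B ↔
      ∃ x : ZMod p × ZMod p × ZMod p × ZMod p, (True ∧ True ∧ True ∧ True) ∧
        T22 x.1 (1 - x.2.2.2) (-x.2.2.2) x.2.1 x.2.2.1 (1 - x.1) (-x.1) x.2.2.2 = B := by
    intro B
    constructor
    · rintro ⟨a, c, d, e⟩
      exact ⟨(a, c, d, e), ⟨trivial, trivial, trivial, trivial⟩, rfl⟩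
    · rintro ⟨⟨a, c, d, e⟩, -, rfl⟩
      exact NF3cG.g a c d e
  rw [cnt_congr key, cnt_im]
  · rw [cnt_prod (fun _ : ZMod p => True)
      (fun _ : ZMod p × ZMod p × ZMod p => True ∧ True ∧ True),
      cnt_prod (fun _ : ZMod p => True) (fun _ : ZMod p × ZMod p => True ∧ True),
      cnt_prod (fun _ : ZMod p => True) (fun _ : ZMod p => True), cnt_true]
    ring
  · rintro ⟨a, c, d, e⟩ ⟨a', c', d', e'⟩ _ _ h
    rw [T22_inj] at h
    obtain ⟨h1, -, -, h2, h3, -, -, h4⟩ := h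
    dsimp only at h1 h2 h3 h4
    subst h1 h2 h3 h4
    rfl

end Pool.NR
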