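import Pool.Agent.H97.NR.StmtsC
import Pool.Agent.H8.NR.Cnt

set_option autoImplicit false

namespace Pool.NR

open H8C

theorem j3l (hN : NPTStmt) (hK : NKRStmt) : J3LStmt := by
  intro p hp
  have h10 : (1 : ZMod p) ≠ 0 := one_ne_zero
  obtain ⟨-, hPt, -, -, h3a, h3b, -, hne, -⟩ := hN p
  have hne0 := hne 0
  have hK2 := hK p 2 (by norm_num)
  -- l1
  have c1 : cnt (fun B : Fin 2 → Fin 2 → Fin 2 → ZMod p =>
      ∃ x : (ZMod p × ZMod p) × ZMod p × ZMod p, (Pt x.1.1 x.1.2 ∧ True ∧ x.2.2 ≠ 0) ∧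
        T3c x.1.1 x.1.2 x.2.1 x.2.2 1 0 = B) = (p + 1) * (p * (p - 1)) := by
    rw [cnt_im, cnt_prod (fun x : ZMod p × ZMod p => Pt x.1 x.2)
      (fun y : ZMod p × ZMod p => True ∧ y.2 ≠ 0), hPt,
      cnt_prod (fun _ : ZMod p => True) (fun x : ZMod p => x ≠ 0), cnt_true]
    · congr 2
      omega
    · rintro ⟨⟨a, b⟩, c, d⟩ ⟨⟨a', b'⟩, c', d'⟩ _ _ h
      rw [T3c_inj] at h
      obtain ⟨h1, h2, h3, h4, -, -⟩ := h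
      dsimp only at h1 h2 h3 h4
      subst h1 h2 h3 h4
      rfl
  have c2 : cnt (fun B : Fin 2 → Fin 2 → Fin 2 → ZMod p =>
      ∃ x : (ZMod p × ZMod p) × ZMod p × ZMod p, (Pt x.1.1 x.1.2 ∧ True ∧ KRep p 2 x.2.2) ∧
        T3c x.1.1 x.1.2 x.2.1 x.2.2 0 0 = B) = (p + 1) * (p * Nat.gcd 2 (p - 1)) := by
    rw [cnt_im, cnt_prod (fun x : ZMod p × ZMod p => Pt x.1 x.2)
      (fun y : ZMod p × ZMod p => True ∧ KRep p 2 y.2), hPt,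
      cnt_prod (fun _ : ZMod p => True) (fun x : ZMod p => KRep p 2 x), cnt_true, hK2]
    rintro ⟨⟨a, b⟩, c, d⟩ ⟨⟨a', b'⟩, c', d'⟩ _ _ h
    rw [T3c_inj] at h
    obtain ⟨h1, h2, h3, h4, -, -⟩ := h
    dsimp only at h1 h2 h3 h4
    subst h1 h2 h3 h4
    rfl
  have c6 : cnt (fun B : Fin 2 → Fin 2 → Fin 2 → ZMod p =>
      ∃ x : (ZMod p × ZMod p) × ZMod p, (Pt x.1.1 x.1.2 ∧ True) ∧
        T3c x.1.1 x.1.2 x.2 0 0 0 = B) = (p + 1) * p := by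
    rw [cnt_im, cnt_prod (fun x : ZMod p × ZMod p => Pt x.1 x.2)
      (fun _ : ZMod p => True), hPt, cnt_true]
    rintro ⟨⟨a, b⟩, c⟩ ⟨⟨a', b'⟩, c'⟩ _ _ h
    rw [T3c_inj] at h
    obtain ⟨h1, h2, h3, -, -, -⟩ := h
    dsimp only at h1 h2 h3
    subst h1 h2 h3
    rfl
  have c7 : cnt (fun B : Fin 2 → Fin 2 → Fin 2 → ZMod p =>
      ∃ x : (ZMod p × ZMod p) × ZMod p, (Pt x.1.1 x.1.2 ∧ 3 * x.2 = x.1.1 + x.1.2) ∧
        T3c x.1.1 x.1.2 x.2 0 1 0 = B) = if p = 3 then 3 else p + 1 := by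
    rw [cnt_im]
    · split_ifs with h
      · exact h3b h
      · exact h3a h
    · rintro ⟨⟨a, b⟩, c⟩ ⟨⟨a', b'⟩, c'⟩ _ _ h
      rw [T3c_inj] at h
      obtain ⟨h1, h2, h3, -, -, -⟩ := h
      dsimp only at h1 h2 h3
      subst h1 h2 h3
      rfl
  -- blocks l1 l2 l6 l7 : e = 0
  have cA : cnt (fun B : Fin 2 → Fin 2 → Fin 2 → ZMod p =>
      ((∃ x : (ZMod p × ZMod p) × ZMod p × ZMod p, (Pt x.1.1 x.1.2 ∧ True ∧ x.2.2 ≠ 0) ∧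
        T3c x.1.1 x.1.2 x.2.1 x.2.2 1 0 = B) ∨
      (∃ x : (ZMod p × ZMod p) × ZMod p × ZMod p, (Pt x.1.1 x.1.2 ∧ True ∧ KRep p 2 x.2.2) ∧
        T3c x.1.1 x.1.2 x.2.1 x.2.2 0 0 = B)) ∨
      ((∃ x : (ZMod p × ZMod p) × ZMod p, (Pt x.1.1 x.1.2 ∧ True) ∧
        T3c x.1.1 x.1.2 x.2 0 0 0 = B) ∨
      (∃ x : (ZMod p × ZMod p) × ZMod p, (Pt x.1.1 x.1.2 ∧ 3 * x.2 = x.1.1 + x.1.2) ∧
        T3c x.1.1 x.1.2 x.2 0 1 0 = B))) =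
      (p + 1) * (p * (p - 1)) + (p + 1) * (p * Nat.gcd 2 (p - 1)) +
        ((p + 1) * p + if p = 3 then 3 else p + 1) := by
    rw [cnt_or, cnt_or, cnt_or, c1, c2, c6, c7]
    · rintro x ⟨y, h, rfl⟩ ⟨z, h', h''⟩
      rw [T3c_inj] at h''
      exact h10 h''.2.2.2.2.1
    · rintro x ⟨y, h, rfl⟩ ⟨z, h', h''⟩
      rw [T3c_inj] at h''
      exact h10 h''.2.2.2.2.1.symm
    · rintro x (⟨y, h, rfl⟩ | ⟨y, h, rfl⟩) (⟨z, h', h''⟩ | ⟨z, h', h''⟩)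
      · rw [T3c_inj] at h''
        exact h.2.2 h''.2.2.2.1.symm
      · rw [T3c_inj] at h''
        exact h.2.2 h''.2.2.2.1.symm
      · rw [T3c_inj] at h''
        exact h.2.2.1 h''.2.2.2.1.symm
      · rw [T3c_inj] at h''
        exact h.2.2.1 h''.2.2.2.1.symm
  by_cases h2 : p = 2
  · -- p = 2
    have c4 : cnt (fun B : Fin 2 → Fin 2 → Fin 2 → ZMod p =>
        ∃ x : ZMod p × ZMod p, Pt x.1 x.2 ∧
          T3c x.1 x.2 (x.1 + x.2) 0 0 1 = B) = p + 1 := by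
      rw [cnt_im, hPt]
      rintro ⟨a, b⟩ ⟨a', b'⟩ _ _ h
      rw [T3c_inj] at h
      obtain ⟨h1, h2, -⟩ := h
      dsimp only at h1 h2
      subst h1 h2
      rfl
    have c5 : cnt (fun B : Fin 2 → Fin 2 → Fin 2 → ZMod p =>
        ∃ x : (ZMod p × ZMod p) × ZMod p, (Pt x.1.1 x.1.2 ∧ True) ∧
          T3c x.1.1 x.1.2 (x.1.1 + x.1.2 + 1) 0 x.2 1 = B) = (p + 1) * p := by
      rw [cnt_im, cnt_prod (fun x : ZMod p × ZMod p => Pt x.1 x.2)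
        (fun _ : ZMod p => True), hPt, cnt_true]
      rintro ⟨⟨a, b⟩, c⟩ ⟨⟨a', b'⟩, c'⟩ _ _ h
      rw [T3c_inj] at h
      obtain ⟨h1, h2, -, -, h3, -⟩ := h
      dsimp only at h1 h2 h3
      subst h1 h2 h3
      rfl
    have key : ∀ B : Fin 2 → Fin 2 → Fin 2 → ZMod p, NF3cL B ↔
        (((∃ x : (ZMod p × ZMod p) × ZMod p × ZMod p, (Pt x.1.1 x.1.2 ∧ True ∧ x.2.2 ≠ 0) ∧
        T3c x.1.1 x.1.2 x.2.1 x.2.2 1 0 = B) ∨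
      (∃ x : (ZMod p × ZMod p) × ZMod p × ZMod p, (Pt x.1.1 x.1.2 ∧ True ∧ KRep p 2 x.2.2) ∧
        T3c x.1.1 x.1.2 x.2.1 x.2.2 0 0 = B)) ∨
      ((∃ x : (ZMod p × ZMod p) × ZMod p, (Pt x.1.1 x.1.2 ∧ True) ∧
        T3c x.1.1 x.1.2 x.2 0 0 0 = B) ∨
      (∃ x : (ZMod p × ZMod p) × ZMod p, (Pt x.1.1 x.1.2 ∧ 3 * x.2 = x.1.1 + x.1.2) ∧
        T3c x.1.1 x.1.2 x.2 0 1 0 = B))) ∨
      ((∃ x : ZMod p × ZMod p, Pt x.1 x.2 ∧ T3c x.1 x.2 (x.1 + x.2) 0 0 1 = B) ∨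
        (∃ x : (ZMod p × ZMod p) × ZMod p, (Pt x.1.1 x.1.2 ∧ True) ∧
          T3c x.1.1 x.1.2 (x.1.1 + x.1.2 + 1) 0 x.2 1 = B)) := by
      intro B
      constructor
      · intro h0
        cases h0 with
        | l1 α β a c h h' => exact Or.inl (Or.inl (Or.inl ⟨((α, β), a, c), ⟨h, trivial, h'⟩, rfl⟩))
        | l2 α β a c h h' => exact Or.inl (Or.inl (Or.inr ⟨((α, β), a, c), ⟨h, trivial, h'⟩, rfl⟩))
        | l3 α β d h h' => exact absurd h2 h'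
        | l4 α β h _ => exact Or.inr (Or.inl ⟨(α, β), h, rfl⟩)
        | l5 α β d h _ => exact Or.inr (Or.inr ⟨((α, β), d), ⟨h, trivial⟩, rfl⟩)
        | l6 α β a h => exact Or.inl (Or.inr (Or.inl ⟨((α, β), a), ⟨h, trivial⟩, rfl⟩))
        | l7 α β a h h' => exact Or.inl (Or.inr (Or.inr ⟨((α, β), a), ⟨h, h'⟩, rfl⟩))
      · rintro (((⟨x, h, rfl⟩ | ⟨x, h, rfl⟩) | (⟨x, h, rfl⟩ | ⟨x, h, rfl⟩)) |
          (⟨x, h, rfl⟩ | ⟨x, h, rfl⟩))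
        · exact NF3cL.l1 _ _ _ _ h.1 h.2.2
        · exact NF3cL.l2 _ _ _ _ h.1 h.2.2
        · exact NF3cL.l6 _ _ _ h.1
        · exact NF3cL.l7 _ _ _ h.1 h.2
        · exact NF3cL.l4 _ _ h h2
        · exact NF3cL.l5 _ _ _ h.1 h2
    rw [cnt_congr key, cnt_or, cA, cnt_or, c4, c5, if_pos h2]
    · subst h2
      rfl
    · rintro x ⟨y, h, rfl⟩ ⟨z, h', h''⟩
      rw [T3c_inj] at h''
      obtain ⟨h4, h5, h6, -⟩ := h''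
      apply h10
      rw [h4, h5] at h6
      linear_combination h6
    · rintro x ((⟨y, h, rfl⟩ | ⟨y, h, rfl⟩) | (⟨y, h, rfl⟩ | ⟨y, h, rfl⟩))
        (⟨z, h', h''⟩ | ⟨z, h', h''⟩) <;>
      · rw [T3c_inj] at h''
        exact h10 h''.2.2.2.2.2
  · have c3 : cnt (fun B : Fin 2 → Fin 2 → Fin 2 → ZMod p =>
        ∃ x : (ZMod p × ZMod p) × ZMod p, (Pt x.1.1 x.1.2 ∧ True) ∧
          T3c x.1.1 x.1.2 0 0 x.2 1 = B) = (p + 1) * p := by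
      rw [cnt_im, cnt_prod (fun x : ZMod p × ZMod p => Pt x.1 x.2)
        (fun _ : ZMod p => True), hPt, cnt_true]
      rintro ⟨⟨a, b⟩, c⟩ ⟨⟨a', b'⟩, c'⟩ _ _ h
      rw [T3c_inj] at h
      obtain ⟨h1, h2, -, -, h3, -⟩ := h
      dsimp only at h1 h2 h3
      subst h1 h2 h3
      rfl
    have key : ∀ B : Fin 2 → Fin 2 → Fin 2 → ZMod p, NF3cL B ↔
        (((∃ x : (ZMod p × ZMod p) × ZMod p × ZMod p, (Pt x.1.1 x.1.2 ∧ True ∧ x.2.2 ≠ 0) ∧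
        T3c x.1.1 x.1.2 x.2.1 x.2.2 1 0 = B) ∨
      (∃ x : (ZMod p × ZMod p) × ZMod p × ZMod p, (Pt x.1.1 x.1.2 ∧ True ∧ KRep p 2 x.2.2) ∧
        T3c x.1.1 x.1.2 x.2.1 x.2.2 0 0 = B)) ∨
      ((∃ x : (ZMod p × ZMod p) × ZMod p, (Pt x.1.1 x.1.2 ∧ True) ∧
        T3c x.1.1 x.1.2 x.2 0 0 0 = B) ∨
      (∃ x : (ZMod p × ZMod p) × ZMod p, (Pt x.1.1 x.1.2 ∧ 3 * x.2 = x.1.1 + x.1.2) ∧
        T3c x.1.1 x.1.2 x.2 0 1 0 = B))) ∨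
        (∃ x : (ZMod p × ZMod p) × ZMod p, (Pt x.1.1 x.1.2 ∧ True) ∧
          T3c x.1.1 x.1.2 0 0 x.2 1 = B) := by
      intro B
      constructor
      · intro h0
        cases h0 with
        | l1 α β a c h h' => exact Or.inl (Or.inl (Or.inl ⟨((α, β), a, c), ⟨h, trivial, h'⟩, rfl⟩))
        | l2 α β a c h h' => exact Or.inl (Or.inl (Or.inr ⟨((α, β), a, c), ⟨h, trivial, h'⟩, rfl⟩))
        | l3 α β d h h' => exact Or.inr ⟨((α, β), d), ⟨h, trivial⟩, rfl⟩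
        | l4 α β h h' => exact absurd h' h2
        | l5 α β d h h' => exact absurd h' h2
        | l6 α β a h => exact Or.inl (Or.inr (Or.inl ⟨((α, β), a), ⟨h, trivial⟩, rfl⟩))
        | l7 α β a h h' => exact Or.inl (Or.inr (Or.inr ⟨((α, β), a), ⟨h, h'⟩, rfl⟩))
      · rintro (((⟨x, h, rfl⟩ | ⟨x, h, rfl⟩) | (⟨x, h, rfl⟩ | ⟨x, h, rfl⟩)) | ⟨x, h, rfl⟩)
        · exact NF3cL.l1 _ _ _ _ h.1 h.2.2
        · exact NF3cL.l2 _ _ _ _ h.1 h.2.2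
        · exact NF3cL.l6 _ _ _ h.1
        · exact NF3cL.l7 _ _ _ h.1 h.2
        · exact NF3cL.l3 _ _ _ h.1 h2
    have hg : Nat.gcd 2 (p - 1) = 2 := by
      rcases hp.out.eq_two_or_odd' with h | h
      · exact absurd h h2
      · obtain ⟨k, hk⟩ := h
        rw [hk, Nat.add_sub_cancel]
        exact Nat.gcd_eq_left ⟨k, rfl⟩
    rw [cnt_congr key, cnt_or, cA, c3, if_neg h2, hg]
    · split_ifs with h3
      · subst h3; rfl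
      · obtain ⟨n, rfl⟩ : ∃ n, p = n + 1 := ⟨p - 1, by have := hp.out.pos; omega⟩
        rw [Nat.add_sub_cancel]
        ring
    · rintro x ((⟨y, h, rfl⟩ | ⟨y, h, rfl⟩) | (⟨y, h, rfl⟩ | ⟨y, h, rfl⟩)) ⟨z, h', h''⟩ <;>
      · rw [T3c_inj] at h''
        exact h10 h''.2.2.2.2.2

end Pool.NR
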