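import Pool.Agent.H97.NR.StmtsC
import Pool.Agent.H8.NR.Cnt

set_option autoImplicit false

namespace Pool.NR

open H8C

theorem j3t (hG : J3GStmt) (hL : J3LStmt) (hZ : J3ZStmt) : J3TStmt := by
  intro p hp
  have h10 : (1 : ZMod p) ≠ 0 := one_ne_zero
  have iG : ∀ B : Fin 2 → Fin 2 → Fin 2 → ZMod p, NF3cG B → B 0 0 1 ≠ B 0 1 0 := by
    intro B h0
    cases h0 with
    | g a c d e =>
      intro h
      have h1 : (1 : ZMod p) - e = -e := h
      apply h10
      linear_combination h1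
  have iL : ∀ B : Fin 2 → Fin 2 → Fin 2 → ZMod p, NF3cL B →
      ∃ α β a c d e, Pt α β ∧ B = T3c α β a c d e := by
    intro B h0
    cases h0 with
    | l1 α β a c h _ => exact ⟨_, _, _, _, _, _, h, rfl⟩
    | l2 α β a c h _ => exact ⟨_, _, _, _, _, _, h, rfl⟩
    | l3 α β d h _ => exact ⟨_, _, _, _, _, _, h, rfl⟩
    | l4 α β h _ => exact ⟨_, _, _, _, _, _, h, rfl⟩
    | l5 α β d h _ => exact ⟨_, _, _, _, _, _, h, rfl⟩
    | l6 α β a h => exact ⟨_, _, _, _, _, _, h, rfl⟩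
    | l7 α β a h _ => exact ⟨_, _, _, _, _, _, h, rfl⟩
  have iZ : ∀ B : Fin 2 → Fin 2 → Fin 2 → ZMod p, NF3cZ B →
      ∃ a c d e, B = T3c 0 0 a c d e := by
    intro B h0
    cases h0 with
    | z1 d h => exact ⟨_, _, _, _, rfl⟩
    | z2 => exact ⟨_, _, _, _, rfl⟩
    | z3 s h h' => exact ⟨_, _, _, _, rfl⟩
    | z4 d h => exact ⟨_, _, _, _, rfl⟩
    | z5 a d h h' => exact ⟨_, _, _, _, rfl⟩
    | z6 h => exact ⟨_, _, _, _, rfl⟩
  have key : ∀ B : Fin 2 → Fin 2 → Fin 2 → ZMod p, NF3c B ↔ (NF3cG B ∨ NF3cL B) ∨ NF3cZ B := by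
    intro B
    constructor
    · intro h0
      cases h0 with
      | g h => exact Or.inl (Or.inl h)
      | l h => exact Or.inl (Or.inr h)
      | z h => exact Or.inr h
    · rintro ((h | h) | h)
      · exact NF3c.g B h
      · exact NF3c.l B h
      · exact NF3c.z B h
  rw [cnt_congr key, cnt_or, cnt_or, hG p, hL p, hZ p]
  · split_ifs with h h'
    · subst h; rfl
    · subst h'; rfl
    · ring
  · intro x h h'
    obtain ⟨α, β, a, c, d, e, -, rfl⟩ := iL x h'
    exact iG _ h rfl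
  · rintro x (h | h) h'
    · obtain ⟨a, c, d, e, rfl⟩ := iZ x h'
      exact iG _ h rfl
    · obtain ⟨α, β, a, c, d, e, h1, rfl⟩ := iL x h
      obtain ⟨a', c', d', e', h2⟩ := iZ _ h'
      rw [T3c_inj] at h2
      rcases h1 with h1 | h1
      · exact h10 (h1.symm.trans h2.1)
      · exact h10 (h1.2.symm.trans h2.2.1)

end Pool.NR
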