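import Pool.Agent.H97.NR.StmtsC
import Pool.Agent.H97.NR.Stmts
import Pool.Agent.H8.NR.Cnt

set_option autoImplicit false

namespace Pool.NR

open H8C

theorem j3z (hN : NPTStmt) (hK : NKRStmt) (hC : CREStmt) : J3ZStmt := by
  intro p hp
  have h10 : (1 : ZMod p) ≠ 0 := one_ne_zero
  have hb := (hN p).1
  -- first block: z1 z2
  have c1 : cnt (fun B : Fin 2 → Fin 2 → Fin 2 → ZMod p =>
      (∃ d : ZMod p, Bit d ∧ T3c 0 0 0 0 d 0 = B) ∨ B = T3c 0 0 0 0 0 1) = 3 := by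
    rw [cnt_or, cnt_im, cnt_one, hb]
    · intro x y _ _ h
      rw [T3c_inj] at h
      exact h.2.2.2.2.1
    · rintro x ⟨d, h, rfl⟩ h'
      rw [T3c_inj] at h'
      exact h10 h'.2.2.2.2.2.symm
  have c2 : cnt (fun B : Fin 2 → Fin 2 → Fin 2 → ZMod p =>
      (∃ s : ZMod p, (p ≠ 2 ∧ KRep p 2 s) ∧ T3c 0 0 0 0 s 1 = B) ∨
        (∃ d : ZMod p, p = 2 ∧ T3c 0 0 1 0 d 1 = B)) = 2 := by
    rw [cnt_or, cnt_im, cnt_im]
    · by_cases h2 : p = 2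
      · rw [cnt_false (fun a h => h.1 h2),
          cnt_congr (Q := fun _ : ZMod p => True) (fun x => ⟨fun _ => trivial, fun _ => h2⟩),
          cnt_true, h2]
      · rw [cnt_false (P := fun _ : ZMod p => p = 2) (fun a h => h2 h),
          cnt_congr (Q := fun s : ZMod p => KRep p 2 s) (fun x => ⟨fun h => h.2, fun h => ⟨h2, h⟩⟩),
          hK p 2 (by norm_num)]
        rcases hp.out.eq_two_or_odd' with h | h
        · exact absurd h h2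
        · obtain ⟨k, hk⟩ := h
          rw [hk, Nat.add_sub_cancel]
          exact Nat.gcd_eq_left ⟨k, rfl⟩
    · intro x y _ _ h
      rw [T3c_inj] at h
      exact h.2.2.2.2.1
    · intro x y _ _ h
      rw [T3c_inj] at h
      exact h.2.2.2.2.1
    · rintro x ⟨s, h, rfl⟩ ⟨d, h', h''⟩
      rw [T3c_inj] at h''
      exact h10 h''.2.2.1
  have c3 : cnt (fun B : Fin 2 → Fin 2 → Fin 2 → ZMod p =>
      (∃ x : ZMod p × ZMod p, (p ≠ 3 ∧ CRep p x.1 x.2) ∧ T3c 0 0 x.1 1 x.2 0 = B) ∨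
        (p = 3 ∧ B = T3c 0 0 1 0 1 0)) = 1 := by
    by_cases h3 : p = 3
    · rw [cnt_congr (Q := fun B : Fin 2 → Fin 2 → Fin 2 → ZMod p => B = T3c 0 0 1 0 1 0), cnt_one]
      intro x
      constructor
      · rintro (⟨y, h, -⟩ | h)
        · exact absurd h3 h.1
        · exact h.2
      · intro h
        exact Or.inr ⟨h3, h⟩
    · obtain ⟨a, d, h4, h5⟩ := hC p h3
      rw [cnt_congr (Q := fun B : Fin 2 → Fin 2 → Fin 2 → ZMod p => B = T3c 0 0 a 1 d 0), cnt_one]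
      intro x
      constructor
      · rintro (⟨y, h, rfl⟩ | h)
        · obtain ⟨h6, h7⟩ := h5 y.1 y.2 h.2
          rw [h6, h7]
        · exact absurd h.1 h3
      · rintro rfl
        exact Or.inl ⟨(a, d), ⟨h3, h4⟩, rfl⟩
  have key : ∀ B : Fin 2 → Fin 2 → Fin 2 → ZMod p, NF3cZ B ↔
      (((∃ d : ZMod p, Bit d ∧ T3c 0 0 0 0 d 0 = B) ∨ B = T3c 0 0 0 0 0 1) ∨
      ((∃ s : ZMod p, (p ≠ 2 ∧ KRep p 2 s) ∧ T3c 0 0 0 0 s 1 = B) ∨
        (∃ d : ZMod p, p = 2 ∧ T3c 0 0 1 0 d 1 = B))) ∨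
      ((∃ x : ZMod p × ZMod p, (p ≠ 3 ∧ CRep p x.1 x.2) ∧ T3c 0 0 x.1 1 x.2 0 = B) ∨
        (p = 3 ∧ B = T3c 0 0 1 0 1 0)) := by
    intro B
    constructor
    · intro h0
      cases h0 with
      | z1 d h => exact Or.inl (Or.inl (Or.inl ⟨d, h, rfl⟩))
      | z2 => exact Or.inl (Or.inl (Or.inr rfl))
      | z3 s h h' => exact Or.inl (Or.inr (Or.inl ⟨s, ⟨h, h'⟩, rfl⟩))
      | z4 d h => exact Or.inl (Or.inr (Or.inr ⟨d, h, rfl⟩))
      | z5 a d h h' => exact Or.inr (Or.inl ⟨(a, d), ⟨h, h'⟩, rfl⟩)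
      | z6 h => exact Or.inr (Or.inr ⟨h, rfl⟩)
    · rintro (((⟨d, h, rfl⟩ | rfl) | (⟨s, h, rfl⟩ | ⟨d, h, rfl⟩)) | (⟨x, h, rfl⟩ | ⟨h, rfl⟩))
      · exact NF3cZ.z1 d h
      · exact NF3cZ.z2
      · exact NF3cZ.z3 s h.1 h.2
      · exact NF3cZ.z4 d h
      · exact NF3cZ.z5 x.1 x.2 h.1 h.2
      · exact NF3cZ.z6 h
  rw [cnt_congr key, cnt_or, cnt_or, c1, c2, c3]
  · rintro x (⟨d, h, rfl⟩ | rfl) (⟨s, h', h''⟩ | ⟨d', h', h''⟩)
    · rw [T3c_inj] at h''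
      exact h10 h''.2.2.2.2.2
    · rw [T3c_inj] at h''
      exact h10 h''.2.2.2.2.2
    · rw [T3c_inj] at h''
      exact h'.2.1 h''.2.2.2.2.1
    · rw [T3c_inj] at h''
      exact h10 h''.2.2.1
  · rintro x ((⟨d, h, rfl⟩ | rfl) | (⟨s, h, rfl⟩ | ⟨d, h, rfl⟩)) (⟨y, h', h''⟩ | ⟨h', h''⟩)
    · rw [T3c_inj] at h''
      exact h10 h''.2.2.2.1
    · rw [T3c_inj] at h''
      exact h10 h''.2.2.1.symm
    · rw [T3c_inj] at h''
      exact h10 h''.2.2.2.1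
    · rw [T3c_inj] at h''
      exact h10 h''.2.2.2.2.2
    · rw [T3c_inj] at h''
      exact h10 h''.2.2.2.1
    · rw [T3c_inj] at h''
      exact h10 h''.2.2.2.2.2
    · rw [T3c_inj] at h''
      exact h10 h''.2.2.2.1
    · rw [T3c_inj] at h''
      exact h10 h''.2.2.2.2.2

end Pool.NR
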