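import Pool.Agent.H97.NR.StmtsC
import Pool.Agent.H97.NR.Stmts
import Pool.Agent.H8.NR.Cnt

set_option autoImplicit false

namespace Pool.NR

open H8C

theorem l3c (hA : AREStmt) : L3CStmt := by
  intro p hp
  obtain ⟨a0, ha0, hu⟩ := hA p
  have h10 : (1 : ZMod p) ≠ 0 := one_ne_zero
  have key : ∀ B : Fin 2 → Fin 2 → Fin 2 → ZMod p, NF3aC B ↔
      (B = T22 1 0 0 0 0 0 0 1 ∨ B = T22 1 0 0 (-a0) 0 1 1 (-1)) ∨ B = T22 1 0 0 0 0 1 1 0 := by
    intro B
    constructor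
    · rintro (h | ⟨a, ha⟩ | h)
      · exact Or.inl (Or.inl rfl)
      · rw [hu a ha]; exact Or.inl (Or.inr rfl)
      · exact Or.inr rfl
    · rintro ((rfl | rfl) | rfl)
      · exact NF3aC.c1
      · exact NF3aC.c2 a0 ha0
      · exact NF3aC.c3
  rw [cnt_congr key, cnt_or, cnt_or, cnt_one, cnt_one, cnt_one]
  · rintro x rfl h
    rw [T22_inj] at h
    exact h10 h.2.2.2.2.2.1.symm
  · rintro x (rfl | rfl) h
    · rw [T22_inj] at h
      exact h10 h.2.2.2.2.2.1.symm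
    · rw [T22_inj] at h
      exact h10 (neg_eq_zero.1 h.2.2.2.2.2.2.2)

end Pool.NR
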