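import Pool.Agent.H97.NR.StmtsC
import Pool.Agent.H8.NR.Cnt

set_option autoImplicit false

namespace Pool.NR

open H8C

theorem l3h (hN : NPTStmt) : L3HStmt := by
  intro p hp
  have h10 : (1 : ZMod p) ≠ 0 := one_ne_zero
  have key : ∀ B : Fin 2 → Fin 2 → Fin 2 → ZMod p, NF3aH B ↔
      B = T22 0 1 0 0 0 0 1 0 ∨ (∃ m : ZMod p, (p ≠ 2 ∨ m ≠ 0) ∧ T22 0 1 1 0 1 1 0 m = B) := by
    intro B
    constructor
    · rintro (h | ⟨m, h⟩)
      · exact Or.inl rfl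
      · exact Or.inr ⟨m, h, rfl⟩
    · rintro (rfl | ⟨τ, h, rfl⟩)
      · exact NF3aH.h1
      · exact NF3aH.h2 τ h
  have h1 := (hN p).2.2.2.2.2.2.2.1 0
  rw [cnt_congr key, cnt_or, cnt_one, cnt_im]
  · by_cases h2 : p = 2
    · have h3 : cnt (fun m : ZMod p => p ≠ 2 ∨ m ≠ 0) = cnt (fun m : ZMod p => m ≠ 0) :=
        cnt_congr fun x => ⟨fun h => h.resolve_left (fun h' => h' h2), Or.inr⟩
      rw [h3, if_pos h2]
      omega
    · have h3 : cnt (fun m : ZMod p => p ≠ 2 ∨ m ≠ 0) = cnt (fun _ : ZMod p => True) :=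
        cnt_congr fun x => ⟨fun _ => trivial, fun _ => Or.inl h2⟩
      rw [h3, cnt_true, if_neg h2]
      omega
  · intro x y _ _ h
    rw [T22_inj] at h
    exact h.2.2.2.2.2.2.2
  · rintro x rfl ⟨m, h, h'⟩
    rw [T22_inj] at h'
    exact h10 h'.2.2.1

end Pool.NR
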