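import Pool.Agent.H97.NR.StmtsC
import Pool.Agent.H8.NR.Cnt

set_option autoImplicit false

namespace Pool.NR

open H8C

theorem l3n_krep1 (p : ℕ) (hp : Fact p.Prime) : KRep p 2 (1 : ZMod p) := by
  refine ⟨one_ne_zero, fun t ht => ?_⟩
  rw [one_mul, ZMod.val_one'' hp.out.one_lt.ne']
  have h1 : (t ^ 2 : ZMod p) ≠ 0 := pow_ne_zero 2 ht
  have h2 : (t ^ 2 : ZMod p).val ≠ 0 := fun h => h1 ((ZMod.val_eq_zero _).1 h)
  omega

theorem l3n_two (hK : NKRStmt) (p : ℕ) (hp : Fact p.Prime) (h2 : p ≠ 2) :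
    ∃ s : ZMod p, KRep p 2 s ∧ s ≠ 1 ∧ ∀ s', KRep p 2 s' → s' = 1 ∨ s' = s := by
  have h1 := hK p 2 (by norm_num)
  have h3 : Nat.gcd 2 (p - 1) = 2 := by
    rcases hp.out.eq_two_or_odd' with h | h
    · exact absurd h h2
    · obtain ⟨k, hk⟩ := h
      rw [hk, Nat.add_sub_cancel]
      exact Nat.gcd_eq_left ⟨k, rfl⟩
  rw [h3, cnt_ncard, Set.ncard_eq_two] at h1
  obtain ⟨x, y, hxy, h4⟩ := h1
  have hk1 : (1 : ZMod p) ∈ {s : ZMod p | KRep p 2 s} := l3n_krep1 p hp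
  have hx : x ∈ {s : ZMod p | KRep p 2 s} := by rw [h4]; simp
  have hy : y ∈ {s : ZMod p | KRep p 2 s} := by rw [h4]; simp
  rw [h4] at hk1
  rcases hk1 with h5 | h5
  · refine ⟨y, hy, fun h => hxy (h5.symm.trans h.symm), fun s' hs' => ?_⟩
    have h6 : s' ∈ {s : ZMod p | KRep p 2 s} := hs'
    rw [h4] at h6
    rcases h6 with h6 | h6
    · exact Or.inl (h6.trans h5.symm)
    · exact Or.inr h6
  · have h5' : (1 : ZMod p) = y := h5
    refine ⟨x, hx, fun h => hxy (h.trans h5'), fun s' hs' => ?_⟩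
    have h6 : s' ∈ {s : ZMod p | KRep p 2 s} := hs'
    rw [h4] at h6
    rcases h6 with h6 | h6
    · exact Or.inr h6
    · have h6' : s' = y := h6
      exact Or.inl (h6'.trans h5'.symm)

theorem l3n (hNN : NNRStmt) (hK : NKRStmt) : L3NStmt := by
  intro p hp
  by_cases h2 : p = 2
  · have key : ∀ B : Fin 2 → Fin 2 → Fin 2 → ZMod p, NF3aN B ↔
        ∃ a : ZMod p, True ∧ T22 1 0 0 1 a 1 0 0 = B := by
      intro B
      constructor
      · rintro (⟨s, a, b, h, -⟩ | ⟨a, -⟩)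
        · exact absurd h2 h
        · exact ⟨a, trivial, rfl⟩
      · rintro ⟨a, -, rfl⟩
        exact NF3aN.n2 a h2
    rw [cnt_congr key, cnt_im, cnt_true]
    intro x y _ _ h
    rw [T22_inj] at h
    exact h.2.2.2.2.1
  · obtain ⟨s, hs, hs1, hu⟩ := l3n_two hK p hp h2
    have key : ∀ B : Fin 2 → Fin 2 → Fin 2 → ZMod p, NF3aN B ↔
        ∃ x : ZMod p × ZMod p, NRep p s x.1 x.2 ∧
          T22 1 0 0 (-s) x.1 (x.2 + 1) (x.2 - 1) (s * x.1) = B := by
      intro B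
      constructor
      · rintro (⟨s', a, b, h, h3, h4, h5⟩ | ⟨a, h⟩)
        · have h6 : s' = s := (hu s' h3).resolve_left h4
          subst h6
          exact ⟨(a, b), h5, rfl⟩
        · exact absurd h h2
      · rintro ⟨x, h, rfl⟩
        exact NF3aN.n1 s x.1 x.2 h2 hs hs1 h
    rw [cnt_congr key, cnt_im, hNN p s h2 hs hs1]
    rintro ⟨a, b⟩ ⟨a', b'⟩ _ _ h
    rw [T22_inj] at h
    have h3 := h.2.2.2.2.1
    have h4 := h.2.2.2.2.2.1
    dsimp only at h3 h4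
    have h5 : b = b' := by simpa using h4
    rw [h3, h5]

end Pool.NR
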