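import Pool.Agent.H97.NR.StmtsC
import Pool.Agent.H8.NR.Cnt

set_option autoImplicit false

namespace Pool.NR

open H8C

theorem l3t (hC : L3CStmt) (hX : L3XStmt) (hH : L3HStmt) (hN : L3NStmt) : L3TStmt := by
  intro p hp
  have h10 : (1 : ZMod p) ≠ 0 := one_ne_zero
  have iC : ∀ B : Fin 2 → Fin 2 → Fin 2 → ZMod p, NF3aC B →
      B 0 0 0 = 1 ∧ B 1 0 1 = B 1 1 0 := by
    rintro B (h | ⟨a, ha⟩ | h)
    · exact ⟨rfl, rfl⟩
    · exact ⟨rfl, rfl⟩
    · exact ⟨rfl, rfl⟩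
  have iX : ∀ B : Fin 2 → Fin 2 → Fin 2 → ZMod p, NF3aX B →
      B 0 0 0 = 1 ∧ B 0 1 1 = 0 ∧ B 1 0 1 ≠ B 1 1 0 := by
    rintro B (⟨τ, h⟩ | h | h)
    · exact ⟨rfl, rfl, fun h' => h (show (1 : ZMod p) = τ from h').symm⟩
    · exact ⟨rfl, rfl, fun h' => h10 (show (0 : ZMod p) = 1 from h').symm⟩
    · exact ⟨rfl, rfl, fun h' => h10 (show (1 : ZMod p) = 0 from h')⟩
  have iH : ∀ B : Fin 2 → Fin 2 → Fin 2 → ZMod p, NF3aH B → B 0 0 0 = 0 := by
    rintro B (h | ⟨m, h⟩)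
    · rfl
    · rfl
  have iN : ∀ B : Fin 2 → Fin 2 → Fin 2 → ZMod p, NF3aN B →
      B 0 0 0 = 1 ∧ B 0 1 1 ≠ 0 ∧ B 1 0 1 ≠ B 1 1 0 := by
    rintro B (⟨s, a, b, h, h3, h4, h5⟩ | ⟨a, h⟩)
    · refine ⟨rfl, fun h' => h3.1 (neg_eq_zero.1 (show -s = 0 from h')), fun h' => ?_⟩
      have h6 : b + 1 = b - 1 := h'
      apply two_ne hp h
      linear_combination h6
    · exact ⟨rfl, fun h' => h10 (show (1 : ZMod p) = 0 from h'),
        fun h' => h10 (show (1 : ZMod p) = 0 from h')⟩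
  have key : ∀ B : Fin 2 → Fin 2 → Fin 2 → ZMod p, NF3a B ↔
      ((NF3aC B ∨ NF3aX B) ∨ NF3aH B) ∨ NF3aN B := by
    intro B
    constructor
    · intro h0
      cases h0 with
      | c h => exact Or.inl (Or.inl (Or.inl h))
      | x h => exact Or.inl (Or.inl (Or.inr h))
      | h h => exact Or.inl (Or.inr h)
      | n h => exact Or.inr h
    · rintro (((h | h) | h) | h)
      · exact NF3a.c B h
      · exact NF3a.x B h
      · exact NF3a.h B h
      · exact NF3a.n B h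
  have e1 := hC p
  have e2 := hX p
  have e3 := hH p
  have e4 := hN p
  rw [cnt_congr key, cnt_or, cnt_or, cnt_or, e1, e2, e3, e4]
  · split_ifs with h
    · subst h; rfl
    · ring
  · intro x h h'
    exact (iX x h').2.2 (iC x h).2
  · rintro x (h | h) h'
    · exact h10 ((iC x h).1.symm.trans (iH x h'))
    · exact h10 ((iX x h).1.symm.trans (iH x h'))
  · rintro x ((h | h) | h) h'
    · exact (iN x h').2.2 (iC x h).2
    · exact (iN x h').2.1 (iX x h).2.1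
    · exact h10 ((iN x h').1.symm.trans (iH x h))

end Pool.NR
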