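import Pool.Agent.H97.NR.StmtsC
import Pool.Agent.H8.NR.Cnt

set_option autoImplicit false

namespace Pool.NR

open H8C

theorem l3x (hN : NPTStmt) : L3XStmt := by
  intro p hp
  have h10 : (1 : ZMod p) ≠ 0 := one_ne_zero
  have key : ∀ B : Fin 2 → Fin 2 → Fin 2 → ZMod p, NF3aX B ↔
      ((∃ τ : ZMod p, τ ≠ 1 ∧ T22 1 0 0 0 0 1 τ 0 = B) ∨ B = T22 1 0 0 0 0 0 1 0) ∨
        B = T22 1 0 0 0 0 1 0 1 := by
    intro B
    constructor
    · rintro (⟨τ, h⟩ | h | h)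
      · exact Or.inl (Or.inl ⟨τ, h, rfl⟩)
      · exact Or.inl (Or.inr rfl)
      · exact Or.inr rfl
    · rintro ((⟨τ, h, rfl⟩ | rfl) | rfl)
      · exact NF3aX.x1 τ h
      · exact NF3aX.x2
      · exact NF3aX.x3
  have h1 := (hN p).2.2.2.2.2.2.2.1 1
  rw [cnt_congr key, cnt_or, cnt_or, cnt_one, cnt_one, cnt_im]
  · omega
  · intro x y _ _ h
    rw [T22_inj] at h
    exact h.2.2.2.2.2.2.1
  · rintro x ⟨τ, h, rfl⟩ h'
    rw [T22_inj] at h'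
    exact h10 h'.2.2.2.2.2.1
  · rintro x (⟨τ, h, rfl⟩ | rfl) h'
    · rw [T22_inj] at h'
      exact h10 h'.2.2.2.2.2.2.2.symm
    · rw [T22_inj] at h'
      exact h10 h'.2.2.2.2.2.2.1

end Pool.NR
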